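import Pool.Agent.H98.PW.Stmts2

/-!
# Row PWR of the PW board: sums of power products which are power products
-/

set_option autoImplicit false

namespace Pool.PW

open Finset Pool.Agent.H98.ABCR

/-- the side of an index -/
def sdN (N : ℕ) : Fin (N * 3) → Fin 3 := fun k => (finProdFinEquiv.symm k).2

lemma pwr_prod_side (N : ℕ) (s : Fin 3) (y : Fin N → Fin 3 → ℕ) :
    ∏ k ∈ univ.filter (fun k => sdN N k = s),
      y (finProdFinEquiv.symm k).1 (finProdFinEquiv.symm k).2 = ∏ j, y j s := by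
  rw [prod_filter, ← Equiv.prod_comp (finProdFinEquiv : Fin N × Fin 3 ≃ Fin (N * 3))]
  simp only [sdN, Equiv.symm_apply_apply]
  rw [Fintype.prod_prod_type]
  refine prod_congr rfl fun j _ => ?_
  simp

lemma pwr_coord_pos (v : ℕ × ℕ) (hv : IsTri v) (s : Fin 3) : 0 < coord v s := by
  obtain ⟨h1, h2, -⟩ := hv
  unfold coord
  fin_cases s
  · exact h1
  · exact h2
  · exact Nat.add_pos_left h1 _

lemma pwr_coord_le (v : ℕ × ℕ) (s : Fin 3) : coord v s ≤ v.1 + v.2 := by
  unfold coord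
  fin_cases s
  · exact Nat.le_add_right _ _
  · exact Nat.le_add_left _ _
  · exact le_rfl

lemma pwr_ext (v w : ℕ × ℕ) (h : ∀ s, coord v s = coord w s) : v = w := by
  have h0 := h 0
  have h1 := h 1
  unfold coord at h0 h1
  exact Prod.ext h0 h1

lemma pwr_rep (N : ℕ) (X : ℝ) (α : Fin 3 → ℕ) (v : ℕ × ℕ) (hv : IsTri v)
    (h : ∀ s, ∃ b, PowProd N X b ∧ coord v s = α s * b) :
    ∃ x e : Fin (N * 3) → ℕ, (∀ k, 1 ≤ x k ∧ (x k : ℝ) ≤ X) ∧
      (∀ s, tm e (sdN N) α s x = coord v s) ∧ ∀ k, 2 ^ (e k) ≤ v.1 + v.2 := by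
  choose b hb1 hb2 using h
  choose x e hx he using hb1
  let y : Fin (N * 3) → ℕ := fun k => x (finProdFinEquiv.symm k).2 (finProdFinEquiv.symm k).1
  let f : Fin (N * 3) → ℕ := fun k => if y k = 1 then 0 else
    e (finProdFinEquiv.symm k).2 (finProdFinEquiv.symm k).1
  have hy : ∀ k, 1 ≤ y k := fun k => (hx _ _).1
  have hyf : ∀ k, y k ^ f k = x (finProdFinEquiv.symm k).2 (finProdFinEquiv.symm k).1 ^
      e (finProdFinEquiv.symm k).2 (finProdFinEquiv.symm k).1 := by
    intro k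
    by_cases hk : y k = 1
    · have h1 : x (finProdFinEquiv.symm k).2 (finProdFinEquiv.symm k).1 = 1 := hk
      simp only [f, if_pos hk, h1, one_pow, pow_zero]
    · simp only [f, if_neg hk]
      rfl
  have hp : ∀ s, ∏ k ∈ univ.filter (fun k => sdN N k = s), y k ^ f k = b s := by
    intro s
    rw [he s, ← pwr_prod_side N s (fun j t => x t j ^ e t j)]
    exact prod_congr rfl fun k _ => hyf k
  refine ⟨y, f, fun k => hx _ _, ?_, ?_⟩
  · intro s
    unfold tm
    rw [hp s, hb2 s]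
  · intro k
    by_cases hk : y k = 1
    · have h1 : f k = 0 := by simp only [f, if_pos hk]
      rw [h1, pow_zero]
      exact Nat.add_pos_left hv.1 _
    · have h1 : 2 ≤ y k := by have := hy k; omega
      have h2 : y k ^ f k ∣ ∏ k ∈ univ.filter (fun l => sdN N l = sdN N k), y k ^ f k :=
        dvd_prod_of_mem (fun k => y k ^ f k) (by simp)
      rw [hp] at h2
      have h3 := pwr_coord_pos v hv (sdN N k)
      have h4 : y k ^ f k ∣ coord v (sdN N k) := by
        rw [hb2]; exact h2.mul_left _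
      calc 2 ^ f k ≤ y k ^ f k := Nat.pow_le_pow_left h1 _
        _ ≤ coord v (sdN N k) := Nat.le_of_dvd h3 h4
        _ ≤ v.1 + v.2 := pwr_coord_le v _

theorem pwr_thm (h1 : S_PWC) : S_PWR := by
  classical
  intro N ε hε
  obtain ⟨K, η, X0, hK, hη, hη1, hX0, H⟩ := h1 (N * 3) (ε / 2) (half_pos hε)
  obtain ⟨n, hn⟩ : ∃ n, n = N * 3 := ⟨_, rfl⟩
  obtain ⟨η', hη'⟩ : ∃ η', η' = min (η / 2) (ε / (2 * ((n : ℝ) + 1))) := ⟨_, rfl⟩
  have h2 : 0 < η' := by
    rw [hη']
    exact lt_min (half_pos hη) (by positivity)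
  have h3 : η' ≤ η / 2 := by rw [hη']; exact min_le_left _ _
  have h4 : (n : ℝ) * η' ≤ ε / 2 := by
    have h5 : η' ≤ ε / (2 * ((n : ℝ) + 1)) := by rw [hη']; exact min_le_right _ _
    rw [le_div_iff₀ (by positivity)] at h5
    nlinarith
  obtain ⟨X1, hX1⟩ : ∃ X1 : ℝ, X1 = max X0 (4 ^ (1 / η)) := ⟨_, rfl⟩
  have h5 : X0 ≤ X1 := by rw [hX1]; exact le_max_left _ _
  have h6 : (4 : ℝ) ^ (1 / η) ≤ X1 := by rw [hX1]; exact le_max_right _ _
  obtain ⟨C, hC⟩ : ∃ C : ℝ, C = max (3 ^ n) ((Real.exp X1 + 1) ^ 2) := ⟨_, rfl⟩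
  have h7 : (3 : ℝ) ^ n ≤ C := by rw [hC]; exact le_max_left _ _
  have h8 : (Real.exp X1 + 1) ^ 2 ≤ C := by rw [hC]; exact le_max_right _ _
  have h9 : 1 ≤ C := le_trans (one_le_pow₀ (by norm_num)) h7
  refine ⟨K, η', C, hK, h2, h9, ?_⟩
  intro X α F hX hF
  have hXp : 0 < X := by linarith
  by_cases hXX : X1 ≤ X
  · have hX0X : X0 ≤ X := h5.trans hXX
    rcases F.eq_empty_or_nonempty with hFe | ⟨v0, hv0⟩
    · rw [hFe]
      simp only [card_empty, Nat.cast_zero]
      positivity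
    have hα : ∀ s, 0 < α s := by
      intro s
      obtain ⟨b, -, hb⟩ := (hF v0 hv0).2.2.2 s
      have h10 := pwr_coord_pos v0 (hF v0 hv0).1 s
      rw [hb] at h10
      exact Nat.pos_of_ne_zero fun h => by simp [h] at h10
    have hrep : ∀ v, ∃ z : (Fin (N * 3) → ℕ) × (Fin (N * 3) → ℕ), v ∈ F →
        (∀ k, 1 ≤ z.1 k ∧ (z.1 k : ℝ) ≤ X) ∧
        (∀ s, tm z.2 (sdN N) α s z.1 = coord v s) ∧ ∀ k, 2 ^ (z.2 k) ≤ v.1 + v.2 := by
      intro v
      by_cases hv : v ∈ F
      · obtain ⟨x, e, h10⟩ := pwr_rep N X α v (hF v hv).1 (hF v hv).2.2.2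
        exact ⟨(x, e), fun _ => h10⟩
      · exact ⟨(0, 0), fun h => absurd h hv⟩
    choose z hz using hrep
    have hlog2 : 0 < Real.log 2 := Real.log_pos (by norm_num)
    have hXη : 1 ≤ X ^ η' := Real.one_le_rpow hX h2.le
    have hez : ∀ v ∈ F, ∀ k, (((z v).2 k : ℕ) : ℝ) ≤ X ^ η' / Real.log 2 := by
      intro v hv k
      rw [le_div_iff₀ hlog2]
      have h10 := (hz v hv).2.2 k
      have h11 : (2 : ℝ) ^ ((z v).2 k) ≤ ((v.1 + v.2 : ℕ) : ℝ) := by exact_mod_cast h10
      have h12 := Real.log_le_log (by positivity) h11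
      rw [Real.log_pow] at h12
      exact h12.trans (hF v hv).2.2.1
    have hlog : 1 / Real.log 2 < 2 := by
      rw [div_lt_iff₀ hlog2]
      have := Real.log_two_gt_d9
      linarith
    have hBη : X ^ η' / Real.log 2 ≤ X ^ η := by
      have h10 : (2 : ℝ) ≤ X ^ (η / 2) := by
        calc (2 : ℝ) = ((4 : ℝ) ^ (1 / η)) ^ (η / 2) := by
              rw [← Real.rpow_mul (by norm_num)]
              have : 1 / η * (η / 2) = 1 / 2 := by field_simp
              rw [this, show (4 : ℝ) = 2 ^ (2 : ℝ) by norm_num, ← Real.rpow_mul (by norm_num)]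
              norm_num
          _ ≤ X ^ (η / 2) := Real.rpow_le_rpow (by positivity) (h6.trans hXX) (by positivity)
      calc X ^ η' / Real.log 2 = X ^ η' * (1 / Real.log 2) := by ring
        _ ≤ X ^ η' * 2 := by gcongr
        _ ≤ X ^ (η / 2) * X ^ (η / 2) := by
            apply mul_le_mul _ h10 (by norm_num) (by positivity)
            exact Real.rpow_le_rpow_of_exponent_le hX h3
        _ = X ^ η := by rw [← Real.rpow_add hXp]; congr 1; ring
    obtain ⟨B, hB⟩ : ∃ B : ℕ, B = ⌊X ^ η' / Real.log 2⌋₊ := ⟨_, rfl⟩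
    have hB1 : (B : ℝ) ≤ X ^ η' / Real.log 2 := by
      rw [hB]; exact Nat.floor_le (by positivity)
    have hmap : ∀ v ∈ F, (z v).2 ∈ Fintype.piFinset (fun _ : Fin (N * 3) => range (B + 1)) := by
      intro v hv
      rw [Fintype.mem_piFinset]
      intro k
      rw [mem_range, Nat.lt_succ_iff, hB]
      exact Nat.le_floor (hez v hv k)
    have hfib : ∀ e0 ∈ Fintype.piFinset (fun _ : Fin (N * 3) => range (B + 1)),
        (F.filter (fun v => (z v).2 = e0)).card ≤ ⌊X ^ (ε / 2)⌋₊ := by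
      intro e0 he0
      apply Nat.le_floor
      have h10 : ((F.filter (fun v => (z v).2 = e0)).image (fun v => (z v).1)).card =
          (F.filter (fun v => (z v).2 = e0)).card := by
        apply card_image_of_injOn
        intro v hv w hw hvw
        rw [mem_coe, mem_filter] at hv hw
        apply pwr_ext
        intro s
        have hvw' : (z v).1 = (z w).1 := hvw
        rw [← (hz v hv.1).2.1 s, ← (hz w hw.1).2.1 s, hv.2, hw.2, hvw']
      rw [← h10]
      apply H X e0 (sdN N) α _ hX0X _ hα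
      · intro x hx
        rw [mem_image] at hx
        obtain ⟨v, hv, rfl⟩ := hx
        rw [mem_filter] at hv
        obtain ⟨hv1, rfl⟩ := hv
        obtain ⟨h11, h12, -⟩ := hz v hv1
        obtain ⟨h13, h14, h15, -⟩ := hF v hv1
        have c0 : coord v 0 = v.1 := rfl
        have c1 : coord v 1 = v.2 := rfl
        have c2 : coord v 2 = v.1 + v.2 := rfl
        refine ⟨h11, ?_, ?_, ?_, ?_⟩
        · rw [h12, h12, h12, c0, c1, c2]
        · rw [h12, h12, c0, c1]; exact h13.2.2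
        · rw [h12, c2]; exact h14
        · rw [h12, c2]
          refine h15.trans (Real.rpow_le_rpow_of_exponent_le hX (by linarith))
      · intro x hx y hy hxy
        rw [mem_image] at hx hy
        obtain ⟨v, hv, rfl⟩ := hx
        obtain ⟨w, hw, rfl⟩ := hy
        rw [mem_filter] at hv hw
        have h11 : v = w := by
          apply pwr_ext
          intro s
          rw [← (hz v hv.1).2.1 s, ← (hz w hw.1).2.1 s, hv.2, hw.2]
          exact hxy s
        rw [h11]
      · intro k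
        rw [Fintype.mem_piFinset] at he0
        have h11 := he0 k
        rw [mem_range, Nat.lt_succ_iff] at h11
        have h12 : (e0 k : ℝ) ≤ B := by exact_mod_cast h11
        exact h12.trans (hB1.trans hBη)
    have hcard := card_le_mul_card_image_of_maps_to hmap _ hfib
    rw [Fintype.card_piFinset] at hcard
    simp only [card_range, prod_const, card_univ, Fintype.card_fin] at hcard
    have hc2 : (F.card : ℝ) ≤ X ^ (ε / 2) * ((B : ℝ) + 1) ^ n := by
      have h10 : (F.card : ℝ) ≤ (⌊X ^ (ε / 2)⌋₊ : ℝ) * ((B : ℝ) + 1) ^ n := by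
        rw [hn]; exact_mod_cast hcard
      refine h10.trans (mul_le_mul_of_nonneg_right (Nat.floor_le (by positivity)) (by positivity))
    have hc3 : (B : ℝ) + 1 ≤ 3 * X ^ η' := by
      have h10 : (B : ℝ) ≤ X ^ η' * 2 := by
        calc (B : ℝ) ≤ X ^ η' / Real.log 2 := hB1
          _ = X ^ η' * (1 / Real.log 2) := by ring
          _ ≤ X ^ η' * 2 := by gcongr
      linarith
    calc (F.card : ℝ) ≤ X ^ (ε / 2) * ((B : ℝ) + 1) ^ n := hc2
      _ ≤ X ^ (ε / 2) * (3 * X ^ η') ^ n := by gcongr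
      _ = 3 ^ n * (X ^ (ε / 2) * X ^ (η' * n)) := by
          rw [mul_pow, ← Real.rpow_mul_natCast hXp.le]; ring
      _ ≤ 3 ^ n * (X ^ (ε / 2) * X ^ (ε / 2)) := by
          have : X ^ (η' * n) ≤ X ^ (ε / 2) :=
            Real.rpow_le_rpow_of_exponent_le hX (by linarith)
          gcongr
      _ = 3 ^ n * X ^ ε := by rw [← Real.rpow_add hXp]; congr 2; ring
      _ ≤ C * X ^ ε := by gcongr
  · push Not at hXX
    have hX1p : 1 ≤ X1 := by linarith
    have h10 : ∀ v ∈ F, ((v.1 + v.2 : ℕ) : ℝ) ≤ Real.exp X1 := by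
      intro v hv
      obtain ⟨h11, -, h12, -⟩ := hF v hv
      have h13 : (0 : ℝ) < ((v.1 + v.2 : ℕ) : ℝ) := by
        exact_mod_cast Nat.add_pos_left h11.1 _
      rw [← Real.log_le_iff_le_exp h13]
      refine h12.trans ?_
      calc X ^ η' ≤ X ^ (1 : ℝ) := Real.rpow_le_rpow_of_exponent_le hX (by linarith)
        _ = X := Real.rpow_one X
        _ ≤ X1 := hXX.le
    have h11 : F ⊆ range (⌊Real.exp X1⌋₊ + 1) ×ˢ range (⌊Real.exp X1⌋₊ + 1) := by
      intro v hv
      have h12 := Nat.le_floor (h10 v hv)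
      rw [mem_product, mem_range, mem_range]
      omega
    have h12 := card_le_card h11
    rw [card_product, card_range] at h12
    have h13 : (⌊Real.exp X1⌋₊ : ℝ) ≤ Real.exp X1 := Nat.floor_le (Real.exp_pos _).le
    calc (F.card : ℝ) ≤ ((⌊Real.exp X1⌋₊ : ℝ) + 1) * ((⌊Real.exp X1⌋₊ : ℝ) + 1) := by
          exact_mod_cast h12
      _ ≤ (Real.exp X1 + 1) * (Real.exp X1 + 1) := by gcongr
      _ = (Real.exp X1 + 1) ^ 2 := by ring
      _ ≤ C := h8
      _ ≤ C * X ^ ε := le_mul_of_one_le_right (by linarith) (Real.one_le_rpow hX hε.le)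

end Pool.PW
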